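import Pool.Agent.Lib_helper99.HB.Defs
import Pool.Agent.Lib_helper84.HSG.Forms

/-!
# Hardy's theorem for all newforms of GL₂ over imaginary quadratic fields (project HI): definitions
of the analytic part

`K` is an imaginary quadratic field, `s` a complex embedding. The archimedean type is `(q, ν)`: `q`
a natural number, `ν` purely imaginary, or `q = 0` and `ν` real, `|ν| < 1` (`q = 0`: spherical forms,
Laplace eigenvalue `1 - ν²`; `q ≥ 1`, `ν = 0`: cohomological forms of weight `q + 1`; the forms have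
values in the homogeneous polynomials of degree `2 q` in `u ∈ ℂ²`).
-/

namespace Pool.Agent.HI

open NumberField Complex MeasureTheory
open scoped ENNReal
open Pool.Agent.HB (H3 mu Kb Adm)

variable {K : Type} [Field K] [NumberField K]

/-- `s` is a complex embedding of the imaginary quadratic field `K`. -/
structure IQ (s : K →+* ℂ) : Prop where
  deg : Module.finrank ℚ K = 2
  im : ∃ x, (s x).im ≠ 0

/-- the archimedean types -/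
def Ad (q : ℕ) (ν : ℂ) : Prop := ν.re = 0 ∨ (q = 0 ∧ ν.im = 0 ∧ |ν.re| < 1)

/-- `w/|w|` -/
noncomputable def dir (w : ℂ) : ℂ := w / (‖w‖ : ℂ)

/-- `exp(2 π i Tr(w))`, `Tr(w) = 2 Re(w)` -/
noncomputable def e2 (w : ℂ) : ℂ := cexp (2 * Real.pi * I * ((2 * w.re : ℝ) : ℂ))

/-! ## Whittaker functions and Fourier series -/

/-- the scalar function `(|w| y)^r K_μ(4 π |w| y)` -/
noncomputable def wk (r : ℕ) (μ : ℂ) (w : ℂ) (y : ℝ) : ℂ :=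
  (((‖w‖ * y) ^ r : ℝ) : ℂ) * Kb μ (4 * Real.pi * (‖w‖ * y))

/-- The Whittaker function of type `(q, ν)`. -/
noncomputable def Wh (q : ℕ) (ν : ℂ) (w : ℂ) (y : ℝ) (u : ℂ × ℂ) : ℂ :=
  ∑ j ∈ Finset.range (2 * q + 1), ((2 * q).choose j : ℂ) * (-I) ^ j *
    dir w ^ ((q : ℤ) - (j : ℤ)) * wk (1 + q) (ν + q - j) w y * (u.1 ^ j * u.2 ^ (2 * q - j))

/-- `|u|²` -/
noncomputable def nu (u : ℂ × ℂ) : ℝ := normSq u.1 + normSq u.2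

/-- the Fourier series `∑_ξ c(ξ) W(ξ, y; u) e(Tr(ξ z))`, `p = (z, y)` -/
noncomputable def fs (s : K →+* ℂ) (q : ℕ) (ν : ℂ) (c : K → ℂ) (p : ℂ × ℝ) (u : ℂ × ℂ) : ℂ :=
  ∑' ξ : K, c ξ * (Wh q ν (s ξ) p.2 u * e2 (s ξ * p.1))

/-- the term of `sr` -/
noncomputable def tm (s : K →+* ℂ) (c : K → ℂ) (a r : ℕ) (μ : ℂ) (p : ℂ × ℝ) (ξ : K) : ℂ :=
  c ξ * (dir (s ξ) ^ a * wk r μ (s ξ) p.2 * e2 (s ξ * p.1))

/-- the scalar Fourier series `∑_ξ c(ξ) (ξ/|ξ|)^a (|ξ| y)^r K_μ(4π|ξ|y) e(Tr(ξ z))` -/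
noncomputable def sr (s : K →+* ℂ) (c : K → ℂ) (a r : ℕ) (μ : ℂ) (p : ℂ × ℝ) : ℂ :=
  ∑' ξ : K, tm s c a r μ p ξ

/-- `c` is a system of bounded coefficients on a fractional ideal. -/
structure CS (c : K → ℂ) : Prop where
  zero : c 0 = 0
  supp : ∃ j : HSG.Id K, ∀ ξ, c ξ ≠ 0 → ξ ∈ j.m
  bdd : ∃ C : ℝ, 0 ≤ C ∧ ∀ ξ, ‖c ξ‖ ≤ C

/-- `|z|² + y²` -/
noncomputable def n3 (p : ℂ × ℝ) : ℝ := normSq p.1 + p.2 ^ 2

/-- the inversion `(z, y) ↦ (-z̄, y)/(|z|² + y²)` -/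
noncomputable def iv (p : ℂ × ℝ) : ℂ × ℝ :=
  (-((starRingEnd ℂ) p.1) / ((n3 p : ℝ) : ℂ), p.2 / n3 p)

/-- the unitary matrix `[[z, y], [-y, z̄]]/√(|z|² + y²)` applied to `u` -/
noncomputable def ku (p : ℂ × ℝ) (u : ℂ × ℂ) : ℂ × ℂ :=
  ((p.1 * u.1 + p.2 * u.2) / ((√(n3 p) : ℝ) : ℂ),
    (-p.2 * u.1 + (starRingEnd ℂ) p.1 * u.2) / ((√(n3 p) : ℝ) : ℂ))

/-- A pair of bounded Fourier series which correspond to each other under the inversion. -/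
structure DP (s : K →+* ℂ) (q : ℕ) (ν : ℂ) (c c' : K → ℂ) : Prop where
  cs : CS c
  cs' : CS c'
  bd : ∃ C : ℝ, 0 ≤ C ∧ ∀ (p : ℂ × ℝ) (u : ℂ × ℂ), 0 < p.2 → ‖fs s q ν c p u‖ ≤ C * nu u ^ q
  inv : ∀ (p : ℂ × ℝ) (u : ℂ × ℂ), 0 < p.2 → fs s q ν c' p u = fs s q ν c (iv p) (ku p u)

/-! ## The completed L-function and the integral over the rays -/

/-- `∑_ξ c(ξ) |ξ|^{1-2z}` -/
noncomputable def Ds (s : K →+* ℂ) (c : K → ℂ) (z : ℂ) : ℂ :=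
  ∑' ξ : K, c ξ * (‖s ξ‖ : ℂ) ^ (1 - 2 * z)

/-- `Λ(z) = ∫_0^∞ f(0, y) y^{2z-2} dy`, `f` the middle component -/
noncomputable def Lz (s : K →+* ℂ) (q : ℕ) (ν : ℂ) (c : K → ℂ) (z : ℂ) : ℂ :=
  mellin (fun y : ℝ => sr s c 0 (1 + q) ν (0, y)) (2 * z - 1)

/-- A continuous function which decays rapidly at both ends of the rays `(y v, y)`. -/
structure Ray (f : ℂ × ℝ → ℂ) : Prop where
  cont : ContinuousOn f {p | 0 < p.2}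
  bd : ∀ k : ℕ, ∃ C : ℝ, 0 ≤ C ∧ ∀ (v : ℂ) (y : ℝ), 0 < y →
    ‖f ((y : ℂ) * v, y)‖ ≤ C * (y ^ k)⁻¹ ∧
    ‖f ((y : ℂ) * v, y)‖ ≤ C * (y * (1 + normSq v)) ^ k

/-- the integrand of `Mz` -/
noncomputable def mf (f : ℂ × ℝ → ℂ) (a : ℕ) (σ z : ℂ) (p : ℂ × ℝ) : ℂ :=
  f ((p.2 : ℂ) * p.1, p.2) * (p.1 ^ a *
    (((1 + normSq p.1 : ℝ) : ℂ) ^ (z - 1 / 2 - σ - a / 2) * (p.2 : ℂ) ^ (2 * z - 2)))

/-- `M(σ, z) = ∫_ℂ ∫_0^∞ f(y v, y) v^a (1 + |v|²)^{z-1/2-σ-a/2} y^{2z-2} dy d²v` -/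
noncomputable def Mz (f : ℂ × ℝ → ℂ) (a : ℕ) (σ z : ℂ) : ℂ :=
  ∫ p : ℂ × ℝ, mf f a σ z p ∂((volume : Measure ℂ).prod (volume.restrict (Set.Ioi (0 : ℝ))))

/-- the component of index `i ∈ {0, 1}`: `i = 0`: the middle component; `i = 1`: the next component
for `q ≥ 1`, the gradient for `q = 0` -/
noncomputable def cp (s : K →+* ℂ) (q : ℕ) (ν : ℂ) (c : K → ℂ) (i : ℕ) : ℂ × ℝ → ℂ :=
  if i = 0 then sr s c 0 (1 + q) ν else if q = 0 then sr s c 1 2 ν else sr s c 1 (1 + q) (ν + 1)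

/-- the factor `M/Λ` -/
noncomputable def kp (q : ℕ) (ν : ℂ) (i : ℕ) (σ z : ℂ) : ℂ :=
  if i = 0 then Real.pi * (Gamma (σ - 1 / 2 + (q + ν) / 2) * Gamma (σ - 1 / 2 + (q - ν) / 2)) /
    (Gamma (σ + 1 / 2 - z) * Gamma (σ - 1 / 2 + q + z))
  else if q = 0 then I / 2 * (Gamma (σ + ν / 2) * Gamma (σ - ν / 2)) *
    ((z + ν / 2) * (z - ν / 2)) / (Gamma (σ + 1 - z) * Gamma (σ + 1 + z))
  else I * Real.pi * (Gamma (σ + (q + ν) / 2) * Gamma (σ - 1 + (q - ν) / 2)) *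
    (z + (q + ν) / 2) / (Gamma (σ + 1 - z) * Gamma (σ + q + z))

/-- `h(ε, t) = |t|^{-q} / |Γ(1 + ε + it)|²` -/
noncomputable def hh (q : ℕ) (ε t : ℝ) : ℝ := (|t| ^ q)⁻¹ / ‖Gamma (1 + ε + t * I)‖ ^ 2

/-- the normalised kernels on the critical line, `σ = 1 + ε`, `z = 1/2 + it` -/
noncomputable def kn (q : ℕ) (ν : ℂ) (i : ℕ) (ε t : ℝ) : ℂ :=
  if i = 0 then I ^ q / (Gamma (1 + ε - t * I) * Gamma (1 + ε + q + t * I))
  else if q = 0 then -I * ((1 / 2 + t * I + ν / 2) * (1 / 2 + t * I - ν / 2)) /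
    (Gamma (3 / 2 + ε - t * I) * Gamma (5 / 2 + ε + t * I))
  else -I ^ (q + 1) * (1 / 2 + t * I + (q + ν) / 2) /
    (Gamma (3 / 2 + ε - t * I) * Gamma (3 / 2 + ε + q + t * I))

end Pool.Agent.HI
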