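import Pool.Agent.Lib_helper84.NE.Defs
import Pool.Agent.Lib_helper98.HN.DefsF
import Pool.Agent.Lib_helper25.HI.Defs

/-!
# Project HI: forms on hyperbolic 3-space as functions of a point, a vector and a lattice with
level structure
-/

namespace Pool.Agent.HI

open NumberField Complex MeasureTheory IsDedekindDomain
open scoped nonZeroDivisors MatrixGroups
open Pool.Agent.HSG (Lat Pr IsInt nI prI DD nm dt qP NCl)
open Pool.Agent.HSG.LV (Pt Tp Ts Sc Cp Dv Prim sS sZ ptS ptZ pI Res Gal gI gP wP omF lamF)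

variable {K : Type} [Field K] [NumberField K]

/-! ### The action of `GL₂(K)` -/

/-- `|c z + d|² + |c|² y²` -/
noncomputable def dn (s : K →+* ℂ) (g : GL (Fin 2) K) (p : ℂ × ℝ) : ℝ :=
  normSq (s (g 1 0) * p.1 + s (g 1 1)) + normSq (s (g 1 0)) * p.2 ^ 2

/-- the determinant -/
noncomputable def de (s : K →+* ℂ) (g : GL (Fin 2) K) : ℂ :=
  s (g : Matrix (Fin 2) (Fin 2) K).det

/-- the action on hyperbolic 3-space -/
noncomputable def ac (s : K →+* ℂ) (g : GL (Fin 2) K) (p : ℂ × ℝ) : ℂ × ℝ :=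
  (((s (g 0 0) * p.1 + s (g 0 1)) * (starRingEnd ℂ) (s (g 1 0) * p.1 + s (g 1 1)) +
      s (g 0 0) * (starRingEnd ℂ) (s (g 1 0)) * ((p.2 ^ 2 : ℝ) : ℂ)) / ((dn s g p : ℝ) : ℂ),
    ‖de s g‖ * p.2 / dn s g p)

/-- the unitary matrix `[[c z + d, c y], [-e c̄ y, e (c z + d)‾]]/√(|c z + d|² + |c|² y²)` applied
to `u`, `e = det g / |det g|` -/
noncomputable def kk (s : K →+* ℂ) (g : GL (Fin 2) K) (p : ℂ × ℝ) (u : ℂ × ℂ) : ℂ × ℂ :=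
  (((s (g 1 0) * p.1 + s (g 1 1)) * u.1 + s (g 1 0) * p.2 * u.2) / ((√(dn s g p) : ℝ) : ℂ),
    dir (de s g) * (-((starRingEnd ℂ) (s (g 1 0)) * p.2) * u.1 +
      (starRingEnd ℂ) (s (g 1 0) * p.1 + s (g 1 1)) * u.2) / ((√(dn s g p) : ℝ) : ℂ))

/-! ### Forms -/

/-- Cuspidal automorphic forms of level `n`, type `(q, ν)` and central character `om`, as functions
of a point of hyperbolic 3-space, a vector `u ∈ ℂ²` and a lattice with level structure. -/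
structure IForm (s : K →+* ℂ) (q : ℕ) (ν : ℂ) (n : HSG.Id K) (om : HSG.Id K → ℂ)
    (F : ℂ × ℝ → ℂ × ℂ → Pt n → ℂ) : Prop where
  exp : ∀ x : Pt n, ∃ c : K → ℂ, c 0 = 0 ∧
    (∃ C A : ℝ, ∀ ξ, ‖c ξ‖ ≤ C * (1 + ‖s ξ‖) ^ A) ∧
    (∀ y : HSG.Id K, (∀ β ∈ y.m, x.mul (nm β : GL (Fin 2) K) = x) →
      ∀ ξ, c ξ ≠ 0 → ξ ∈ ((DD K)⁻¹ * y⁻¹).m) ∧
    ∀ (p : ℂ × ℝ) (u : ℂ × ℂ), 0 < p.2 → F p u x = fs s q ν c p u
  slash : ∀ (g : GL (Fin 2) K) (p : ℂ × ℝ) (u : ℂ × ℂ) (x : Pt n), 0 < p.2 →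
    F (ac s g p) (kk s g p u) x = dir (de s g) ^ q * F p u (x.mul g)
  scal : ∀ (a : HSG.Id K) (x y : Pt n), Sc a x y → ∀ (p : ℂ × ℝ) (u : ℂ × ℂ), 0 < p.2 →
    F p u x = om a * F p u y
  bdd : ∀ x : Pt n, ∃ C : ℝ, ∀ (p : ℂ × ℝ) (u : ℂ × ℂ), 0 < p.2 → ‖F p u x‖ ≤ C * nu u ^ q

/-- Newforms: nonzero eigenforms of all Hecke operators `T_p` and of their adjoints, with unitary
central character; `lam p` is the normalised eigenvalue of `T_p`. -/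
structure IEig (s : K →+* ℂ) (q : ℕ) (ν : ℂ) (n : HSG.Id K) (om : HSG.Id K → ℂ) (lam : Pr K → ℂ)
    (F : ℂ × ℝ → ℂ × ℂ → Pt n → ℂ) : Prop where
  form : IForm s q ν n om F
  ne : ∃ p u x, 0 < p.2 ∧ F p u x ≠ 0
  unit : ∀ a, Cp n a → ‖om a‖ = 1
  up : ∀ (p : Pr K) (P : ℂ × ℝ) (u : ℂ × ℂ) (x : Pt n), 0 < P.2 →
    Tp p (F P u) x = ((√(qP p : ℝ) : ℝ) : ℂ) * lam p * F P u x
  dn : ∀ (p : Pr K) (P : ℂ × ℝ) (u : ℂ × ℂ) (x : Pt n), 0 < P.2 →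
    Ts p (F P u) x = ((√(qP p : ℝ) : ℝ) : ℂ) * starRingEnd ℂ (lam p) * F P u x

/-! ### Fourier coefficients -/

/-- a system of coefficients of polynomial growth, supported on the ideal `j` -/
structure GS (s : K →+* ℂ) (j : HSG.Id K) (c : K → ℂ) : Prop where
  zero : c 0 = 0
  supp : ∀ ξ, c ξ ≠ 0 → ξ ∈ j.m
  grow : ∃ C A : ℝ, ∀ ξ, ‖c ξ‖ ≤ C * (1 + ‖s ξ‖) ^ A

open scoped Classical in
/-- the coefficients at the point `(b ⊕ 𝓞, (0,1))` -/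
noncomputable def cS (A : HSG.Id K → ℂ) (b : HSG.Id K) (ξ : K) : ℂ :=
  if h : ξ = 0 then 0 else A (prI (Units.mk0 ξ h) * DD K / b)

open scoped Classical in
/-- the coefficients at the point `(𝓞 ⊕ b, (1,0))` -/
noncomputable def cZ (n : HSG.Id K) (B : HSG.Id K → ℂ) (b : HSG.Id K) (ξ : K) : ℂ :=
  if h : ξ = 0 then 0 else B (prI (Units.mk0 ξ h) * (n * b * DD K))

/-- `A` are the Fourier coefficients of `F` at the points `(b ⊕ 𝓞, (0,1))`. -/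
structure ICoS (s : K →+* ℂ) (q : ℕ) (ν : ℂ) {n : HSG.Id K} (F : ℂ × ℝ → ℂ × ℂ → Pt n → ℂ)
    (A : HSG.Id K → ℂ) : Prop where
  int : ∀ m, ¬ IsInt m → A m = 0
  bdd : ∃ C : ℝ, ∀ m, ‖A m‖ ≤ C
  exp : ∀ (b : HSG.Id K) (p : ℂ × ℝ) (u : ℂ × ℂ), 0 < p.2 → F p u (sS n b) = fs s q ν (cS A b) p u

/-- `B` are the Fourier coefficients of `F` at the points `(𝓞 ⊕ b, (1,0))`. -/
structure ICoZ (s : K →+* ℂ) (q : ℕ) (ν : ℂ) {n : HSG.Id K} (F : ℂ × ℝ → ℂ × ℂ → Pt n → ℂ)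
    (B : HSG.Id K → ℂ) : Prop where
  int : ∀ m, ¬ IsInt m → B m = 0
  bdd : ∃ C : ℝ, ∀ m, ‖B m‖ ≤ C
  exp : ∀ (b : HSG.Id K) (p : ℂ × ℝ) (u : ℂ × ℂ), 0 < p.2 → F p u (sZ n b) = fs s q ν (cZ n B b) p u

/-! ### Boxes -/

/-- the absolute value of the discriminant -/
noncomputable def Dk (K : Type) [Field K] [NumberField K] : ℝ := |(discr K : ℝ)|

/-- a bounded fundamental domain of `ℂ` modulo the lattice of the ideal `y` -/
structure IsBox (s : K →+* ℂ) (y : HSG.Id K) (B : Set ℂ) : Prop where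
  meas : MeasurableSet B
  bdd : ∃ R : ℝ, ∀ z ∈ B, ‖z‖ ≤ R
  ex : ∀ z : ℂ, ∃ β ∈ y.m, z + s β ∈ B
  uni : ∀ z : ℂ, ∀ β ∈ y.m, z ∈ B → z + s β ∈ B → β = 0
  vol : volume B = ENNReal.ofReal (√(Dk K) / 2 * nI y)
  orth : ∀ ξ ∈ ((DD K)⁻¹ * y⁻¹).m, ξ ≠ 0 → ∫ z in B, e2 (s ξ * z) = 0

/-! ### The conjugate form, the change of the level -/

/-- the point of level `n` under a point of level `m` -/
noncomputable def rsP {n m : HSG.Id K} (x : Pt m) : Pt n :=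
  open scoped Classical in if h : ∃ y : Pt n, Res x y then h.choose else sS n 1

/-- the point whose image under `τ` is `y` -/
noncomputable def gaP (τ : K ≃+* K) {n m : HSG.Id K} (y : Pt m) : Pt n :=
  open scoped Classical in if h : ∃ x : Pt n, Gal τ x y then h.choose else sS n 1

/-- a form of level `n` as a form of level `m` -/
noncomputable def Fr {n : HSG.Id K} (m : HSG.Id K) (F : ℂ × ℝ → ℂ × ℂ → Pt n → ℂ) (p : ℂ × ℝ) (u : ℂ × ℂ)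
    (x : Pt m) : ℂ := F p u (rsP x)

/-- the conjugate form `F(z̄, y; (u₂, -u₁); τ⁻¹ x)` -/
noncomputable def Ftau (τ : K ≃+* K) {n : HSG.Id K} (F : ℂ × ℝ → ℂ × ℂ → Pt n → ℂ) (p : ℂ × ℝ)
    (u : ℂ × ℂ) (x : Pt (gI τ n)) : ℂ :=
  F ((starRingEnd ℂ) p.1, p.2) (u.2, -u.1) (gaP τ x)

end Pool.Agent.HI
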