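import Pool.Agent.Lib_helper25.HI.DefsF

/-!
# Project HI: definitions for the Rankin-Selberg section
-/

namespace Pool.Agent.HI

open NumberField Complex MeasureTheory IsDedekindDomain
open scoped nonZeroDivisors MatrixGroups ENNReal
open Pool.Agent.HB (H3 mu Kb)
open Pool.Agent.HSG (Lat Pr IsInt nI prI DD nm wm dgm dt qP NCl)
open Pool.Agent.HSG.LV (Pt Sc Cp sS ptS dua)

variable {K : Type} [Field K] [NumberField K]

open scoped Classical in
/-- the action of `GL₂(K)` on hyperbolic 3-space -/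
noncomputable def aH (s : K →+* ℂ) (g : GL (Fin 2) K) (P : H3) : H3 :=
  if h : 0 < (ac s g P.1).2 then ⟨ac s g P.1, h⟩ else P

/-- `(|c z + d|² + |c|² y²)/(y N(det L)^{1/2})`, `v = (c, d)` -/
noncomputable def QQ (s : K →+* ℂ) (P : H3) (L : Lat K) (v : Fin 2 → K) : ℝ :=
  (normSq (s (v 0) * P.1.1 + s (v 1)) + normSq (s (v 0)) * P.1.2 ^ 2) / P.1.2 / √(nI L.det)

/-- the Gaussian measure on `ℂ²` -/
noncomputable def gam : Measure (ℂ × ℂ) :=
  (volume : Measure (ℂ × ℂ)).withDensity (fun u => ENNReal.ofReal (Real.exp (-(Real.pi * nu u))))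

/-- the inner product of the values of two forms -/
noncomputable def ip {n : HSG.Id K} (F F' : ℂ × ℝ → ℂ × ℂ → Pt n → ℂ) (P : H3) (x : Pt n) : ℂ :=
  ∫ u, F P.1 u x * (starRingEnd ℂ) (F' P.1 u x) ∂gam

/-- the inner product of two Whittaker functions -/
noncomputable def gG (q : ℕ) (ν ν' : ℂ) (X : ℝ) : ℂ :=
  ((2 * q).factorial : ℂ) / Real.pi ^ (2 * q) * ∑ j ∈ Finset.range (2 * q + 1),
    ((2 * q).choose j : ℂ) * (X : ℂ) ^ (2 + 2 * q) *
      (Kb (ν + q - j) (4 * Real.pi * X) * (starRingEnd ℂ) (Kb (ν' + q - j) (4 * Real.pi * X)))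

/-- `Ξ(B) = ∫_0^∞ G(x) exp(-π B/x) dx/x³` -/
noncomputable def xi0 (q : ℕ) (ν ν' : ℂ) (B : ℝ) : ℂ :=
  ∫ x in Set.Ioi (0 : ℝ), gG q ν ν' x * ((Real.exp (-(Real.pi * (B / x))) / x ^ 3 : ℝ) : ℂ)

/-! ### Points with a vector -/

/-- a point with level structure and a vector -/
structure PV (n : HSG.Id K) where
  x : Pt n
  v : Fin 2 → K

/-- the action on points with a vector -/
noncomputable def PV.act {n : HSG.Id K} (g : GL (Fin 2) K) (a : PV n) : PV n :=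
  ⟨a.x.mul g⁻¹, Matrix.vecMul a.v ((g⁻¹ : GL (Fin 2) K) : Matrix (Fin 2) (Fin 2) K)⟩

instance {n : HSG.Id K} : MeasurableSpace (PV n) := ⊤

instance {n : HSG.Id K} : DiscreteMeasurableSpace (PV n) := ⟨fun _ => trivial⟩

theorem countPV (n : HSG.Id K) : Countable (PV n) := by
  have h1 := HSG.countK K
  have h2 := HSG.LV.countP n
  have h : Function.Injective (fun a : PV n => (a.x, a.v)) := by
    rintro ⟨x, v⟩ ⟨x', v'⟩ h
    simpa using h
  exact h.countable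

instance {n : HSG.Id K} : Countable (PV n) := countPV n

/-! ### Weights -/

/-- exact weights of finite mass for the action of `GL₂(K)` on points and lattices -/
structure WG (s : K →+* ℂ) where
  w : H3 → Lat K → ℝ≥0∞
  meas : ∀ L : Lat K, Measurable (fun P => w P L)
  ex : ∀ (P : H3) (L : Lat K), ∑' g : GL (Fin 2) K, w (aH s g P) (L.mul g⁻¹) = 1
  fin : ∑' L : Lat K, ∫⁻ P, w P L ∂mu < ∞

/-- the finite measure which represents the quotient -/
noncomputable def mW {s : K →+* ℂ} (W : WG s) (n : HSG.Id K) : Measure (H3 × Pt n) :=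
  (mu.prod (Measure.count : Measure (Pt n))).withDensity (fun y => W.w y.1 y.2.L)

open scoped Classical in
/-- the theta series of the coset -/
noncomputable def th (s : K →+* ℂ) {n : HSG.Id K} (t : ℝ) (P : H3) (x : Pt n) : ℝ :=
  ∑' v : Fin 2 → K, if v ∈ x.V ∧ v ≠ 0 then Real.exp (-(Real.pi * (t * QQ s P x.L v))) else 0

open scoped Classical in
/-- the dual theta series -/
noncomputable def thD (s : K →+* ℂ) {n : HSG.Id K} (T : ℝ) (P : H3) (x : Pt n) : ℂ :=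
  ∑' l : Fin 2 → K, if l ∈ (dua n x.L).M ∧ l ≠ 0 then e2 (s (dt l x.ex.choose)) *
    ((Real.exp (-(Real.pi * (T * (4 * QQ s P (dua n x.L) l / (Dk K * nI n))))) : ℝ) : ℂ) else 0

/-- `I(t) = ∫ F F'‾ θ_t` -/
noncomputable def It {s : K →+* ℂ} (W : WG s) {n : HSG.Id K} (F F' : ℂ × ℝ → ℂ × ℂ → Pt n → ℂ)
    (t : ℝ) : ℂ :=
  ∫ y : H3 × Pt n, ip F F' y.1 y.2 * ((th s t y.1 y.2 : ℝ) : ℂ) ∂(mW W n)

/-- the dual integral -/
noncomputable def Rt {s : K →+* ℂ} (W : WG s) {n : HSG.Id K} (F F' : ℂ × ℝ → ℂ × ℂ → Pt n → ℂ)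
    (T : ℝ) : ℂ :=
  ∫ y : H3 × Pt n, ip F F' y.1 y.2 * thD s T y.1 y.2 ∂(mW W n)

/-- the total integral -/
noncomputable def J0 {s : K →+* ℂ} (W : WG s) {n : HSG.Id K} (F F' : ℂ × ℝ → ℂ × ℂ → Pt n → ℂ) :
    ℂ :=
  ∫ y : H3 × Pt n, ip F F' y.1 y.2 ∂(mW W n)

open scoped Classical in
/-- the weight of the slices `v = (0,1)`, `x = (b_κ ⊕ c⁻¹, (0,1))`, `z` in a box -/
noncomputable def wsl {n : HSG.Id K} (b : NCl K → HSG.Id K) (Bx : HSG.Id K → Set ℂ) (P : H3)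
    (a : PV n) : ℝ≥0∞ :=
  if ∃ (κ : NCl K) (c : HSG.Id K) (hc : Cp n c), a = ⟨ptS (b κ) hc, ![0, 1]⟩ ∧
    P.1.1 ∈ Bx (c⁻¹ / b κ) then ENNReal.ofReal (1 / (Nat.card (𝓞 K)ˣ : ℝ)) else 0

end Pool.Agent.HI
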